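import Mathlib
import Pool.Agent.KS6_50.SE.Main

/-!
# MP_5069ae_gt: continua which do not shorten the way at all

Let `n ≥ 3`.  For any two distinct points `p, q` of Euclidean `n`-space there is a compact connected
set `K` which contains `p` and `q`, such that every curve from `p` to `q` spends at least the length
`|p - q|` outside `K`.  The segment from `p` to `q` has the whole length `|p - q|`, so this bound is
the best possible one, and the minimum of `length (γ ∖ K)` over all curves `γ` from `p` to `q` is
exactly `|p - q|`.  Moreover, every curve between two points `a, b` of `K` spends outside `K` at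
least the length of the orthogonal projection of the segment from `a` to `b` to the line `p q`.

The set (`KK` in `ℝ³`, in `Pool/Agent/KS6_50/SE/SetK.lean`) is a self-similar one: `KK` is the
intersection of the sets `T^[n] K0`, where `T S` consists of three copies of `S`, contracted by
`1/3` in the first two coordinates and not in the third one, the middle one shifted in the second
coordinate, joined by two segments at the heights `0` and `1`.

Proof.  In each cell of level `n` (there are `3^n` of them, a crossing of a cell is a crossing of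
`[k/3^n, (k+1)/3^n]` by the first coordinate) a curve makes a step of length at least `3^{-n}/6`
outside `K`, or it uses both bridges and then its third coordinate changes by `1`; the latter
happens in a bounded number of cells only.  If finitely many components of the time outside `K`
carry the whole outside length but `ε`, then only about `6 ε 3^n` cells are not met by these
components, so that the components, projected to the first axis, cover the interval up to `6 ε`.
-/

set_option autoImplicit false

open Set Topology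
open scoped RealInnerProductSpace

noncomputable section

namespace Pool.Agent.Results.MP_5069ae_gt.SegmentIsShortest

/-- The length that the curve `γ` spends outside `K`: the sum, over the connected components `J` of
the open set of parameters `t` with `γ t ∉ K`, of the length (total variation) of the restriction
of `γ` to `J`. -/
def lengthOutside {E : Type} [PseudoEMetricSpace E] (γ : unitInterval → E) (K : Set E) : ENNReal :=
  ∑' J : {J : Set unitInterval // ∃ t ∈ γ ⁻¹' Kᶜ, J = connectedComponentIn (γ ⁻¹' Kᶜ) t},
    eVariationOn γ J.1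

/-- the segment as a curve -/
def seg {n : ℕ} (p q : EuclideanSpace ℝ (Fin n)) : Path p q where
  toFun t := AffineMap.lineMap p q (t : ℝ)
  continuous_toFun := by fun_prop
  source' := by simp
  target' := by simp

theorem seg_le {n : ℕ} (p q : EuclideanSpace ℝ (Fin n)) (K : Set (EuclideanSpace ℝ (Fin n))) :
    lengthOutside (seg p q) K ≤ ENNReal.ofReal (dist p q) := by
  refine (Pool.Agent.KS6_50.SE.lengthOutside_le (seg p q) K).trans ?_
  have h1 : LipschitzOnWith (nndist p q) (AffineMap.lineMap p q : ℝ → EuclideanSpace ℝ (Fin n))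
    univ := (lipschitzWith_lineMap p q).lipschitzOnWith
  have h2 := h1.comp_eVariationOn_le (g := fun t : unitInterval => (t : ℝ)) (s := univ)
    (fun _ _ => mem_univ _)
  have h3 : MonotoneOn (fun t : unitInterval => (t : ℝ)) univ := fun a _ b _ h => h
  have h4 := h3.eVariationOn_eq (mem_univ (0 : unitInterval)) (mem_univ (1 : unitInterval))
  have h5 : (univ : Set unitInterval) ∩ Icc 0 1 = univ := by
    rw [univ_inter]
    exact eq_univ_of_forall fun t => ⟨unitInterval.nonneg', unitInterval.le_one'⟩
  rw [h5] at h4
  refine h2.trans (le_of_eq ?_)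
  rw [h4]
  simp only [Set.Icc.coe_one, Set.Icc.coe_zero, sub_zero, ENNReal.ofReal_one, mul_one]
  rw [← edist_dist, edist_nndist]

theorem result (n : ℕ) (hn : 3 ≤ n) (p q : EuclideanSpace ℝ (Fin n)) (hpq : p ≠ q) :
    ∃ K : Set (EuclideanSpace ℝ (Fin n)), IsCompact K ∧ IsConnected K ∧ p ∈ K ∧ q ∈ K ∧
      (∀ γ : Path p q, ENNReal.ofReal (dist p q) ≤ lengthOutside γ K) ∧
      IsLeast (range fun γ : Path p q => lengthOutside γ K) (ENNReal.ofReal (dist p q)) ∧
      ∀ a ∈ K, ∀ b ∈ K, ∀ γ : Path a b,
        ENNReal.ofReal (|⟪q - p, b - a⟫| / dist p q) ≤ lengthOutside γ K := by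
  classical
  let i0 : Fin n := ⟨0, by omega⟩
  let i1 : Fin n := ⟨1, by omega⟩
  let i2 : Fin n := ⟨2, by omega⟩
  have h01 : i0 ≠ i1 := by simp [i0, i1]
  have h02 : i0 ≠ i2 := by simp [i0, i2]
  have h12 : i1 ≠ i2 := by simp [i1, i2]
  set D : ℝ := dist p q with hDdef
  have hD : 0 < D := dist_pos.2 hpq
  have hDn : ‖q - p‖ = D := by rw [hDdef, dist_comm, dist_eq_norm]
  obtain ⟨b, hb⟩ : ∃ b : OrthonormalBasis (Fin n) ℝ (EuclideanSpace ℝ (Fin n)),
      b i0 = D⁻¹ • (q - p) := by
    have horth : Orthonormal ℝ (({i0} : Set (Fin n)).domRestrict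
        fun _ : Fin n => D⁻¹ • (q - p)) := by
      constructor
      · rintro ⟨i, hi⟩
        change ‖D⁻¹ • (q - p)‖ = 1
        rw [norm_smul, norm_inv, Real.norm_eq_abs, abs_of_pos hD, hDn]
        exact inv_mul_cancel₀ hD.ne'
      · rintro ⟨i, hi⟩ ⟨j, hj⟩ hij
        exact absurd (Subtype.ext ((mem_singleton_iff.1 hi).trans (mem_singleton_iff.1 hj).symm)) hij
    obtain ⟨b, hb⟩ := horth.exists_orthonormalBasis_extension_of_card_eq (by simp)
    exact ⟨b, hb i0 rfl⟩
  have hbb : ∀ i j, ⟪b i, b j⟫ = if i = j then (1 : ℝ) else 0 :=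
    fun i j => orthonormal_iff_ite.1 b.orthonormal i j
  -- the embedding and the coordinates
  let Φ : ℝ × ℝ × ℝ → EuclideanSpace ℝ (Fin n) := fun v =>
    p + D • (v.1 • b i0 + v.2.1 • b i1 + v.2.2 • b i2)
  let X : Fin n → EuclideanSpace ℝ (Fin n) → ℝ := fun i w => ⟪b i, w - p⟫ / D
  have hΦc : Continuous Φ := by
    simp only [Φ]
    fun_prop
  have hXc : ∀ i, Continuous (X i) := fun i => by
    simp only [X]
    fun_prop
  have hXΦ : ∀ v, (X i0 (Φ v), X i1 (Φ v), X i2 (Φ v)) = v := by
    rintro ⟨x, y, z⟩
    have e : ∀ i, X i (Φ (x, y, z)) = x * (if i = i0 then 1 else 0) +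
        y * (if i = i1 then 1 else 0) + z * (if i = i2 then 1 else 0) := by
      intro i
      simp only [X, Φ, add_sub_cancel_left, inner_smul_right, inner_add_right, hbb]
      field_simp
    rw [e, e, e]
    simp [h01, h02, h12, h01.symm, h02.symm, h12.symm]
  have hlip : ∀ i w w', D * |X i w - X i w'| ≤ dist w w' := by
    intro i w w'
    have e : X i w - X i w' = ⟪b i, w - w'⟫ / D := by
      simp only [X]
      rw [← sub_div, ← inner_sub_right, sub_sub_sub_cancel_right]
    rw [e, abs_div, abs_of_pos hD, mul_div_cancel₀ _ hD.ne']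
    refine (abs_real_inner_le_norm _ _).trans ?_
    rw [b.orthonormal.1 i, one_mul, dist_eq_norm]
  have hpΦ : Φ (0, 0, 0) = p := by simp [Φ]
  have hqΦ : Φ (1, 0, 0) = q := by
    simp only [Φ, hb, zero_smul, add_zero, smul_smul, one_mul, mul_inv_cancel₀ hD.ne', one_smul]
    abel
  set K := Φ '' Pool.Agent.KS6_50.SE.KK with hK
  have hKX : ∀ w ∈ K, (X i0 w, X i1 w, X i2 w) ∈ Pool.Agent.KS6_50.SE.KK := by
    rintro _ ⟨v, hv, rfl⟩
    rw [hXΦ]
    exact hv
  have hgen : ∀ a ∈ K, ∀ c ∈ K, ∀ γ : Path a c,
      ENNReal.ofReal (|⟪q - p, c - a⟫| / D) ≤ lengthOutside γ K := by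
    intro a ha c hc γ
    have e1 : ⟪q - p, c - a⟫ / D = D * (X i0 c - X i0 a) := by
      simp only [X, hb]
      rw [← sub_div, ← inner_sub_right, sub_sub_sub_cancel_right, inner_smul_left]
      simp only [conj_trivial]
      field_simp
    have hcoord : ∀ i, Continuous fun s => X i (γ s) := fun i => (hXc i).comp γ.continuous
    rcases le_total 0 (⟪q - p, c - a⟫) with h | h
    · rw [abs_of_nonneg h, e1]
      have := Pool.Agent.KS6_50.SE.main (γ := γ) γ.continuous (K := K) (hcoord i0) (hcoord i1)
        (hcoord i2) hD (fun s t => hlip i0 _ _) (fun s t => hlip i1 _ _)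
        (fun s hs => hKX _ hs) (by
          rw [γ.source]
          exact (Pool.Agent.KS6_50.SE.KK_range (hKX a ha)).1)
      simp only [γ.source, γ.target] at this
      exact this
    · rw [abs_of_nonpos h]
      have e2 : -⟪q - p, c - a⟫ / D = D * ((1 - X i0 c) - (1 - X i0 a)) := by
        rw [neg_div, e1]; ring
      rw [e2]
      have := Pool.Agent.KS6_50.SE.main (γ := γ) γ.continuous (K := K)
        (x := fun s => 1 - X i0 (γ s)) (y := fun s => X i1 (γ s)) (z := fun s => 1 - X i2 (γ s))
        (continuous_const.sub (hcoord i0)) (hcoord i1)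
        (continuous_const.sub (hcoord i2)) hD (fun s t => by
          rw [show 1 - X i0 (γ s) - (1 - X i0 (γ t)) = -(X i0 (γ s) - X i0 (γ t)) by ring, abs_neg]
          exact hlip i0 _ _) (fun s t => hlip i1 _ _)
        (fun s hs => Pool.Agent.KS6_50.SE.symm_KK (hKX _ hs)) (by
          rw [γ.source]
          have := (Pool.Agent.KS6_50.SE.KK_range (hKX a ha)).2
          simp only at this
          linarith)
      simp only [γ.source, γ.target] at this
      exact this
  have hpK : p ∈ K := ⟨_, (Pool.Agent.KS6_50.SE.corners le_rfl zero_le_one).1, hpΦ⟩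
  have hqK : q ∈ K := ⟨_, (Pool.Agent.KS6_50.SE.corners le_rfl zero_le_one).2, hqΦ⟩
  have hlow : ∀ γ : Path p q, ENNReal.ofReal D ≤ lengthOutside γ K := by
    intro γ
    have h1 := hgen p hpK q hqK γ
    rw [real_inner_self_eq_norm_sq, hDn, abs_of_nonneg (by positivity), pow_two,
      mul_div_assoc, div_self hD.ne', mul_one] at h1
    exact h1
  refine ⟨K, Pool.Agent.KS6_50.SE.KK_compact.image hΦc,
    Pool.Agent.KS6_50.SE.KK_conn.image Φ hΦc.continuousOn, hpK, hqK, hlow, ⟨?_, ?_⟩, hgen⟩
  · exact ⟨seg p q, le_antisymm (seg_le p q K) (hlow _)⟩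
  · rintro _ ⟨γ, rfl⟩
    exact hlow γ

end Pool.Agent.Results.MP_5069ae_gt.SegmentIsShortest
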